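import Pool.Agent.Run7.h982.QP.Iface

/-! Piece NPQ of the project QP: vectors of `ZZ` are almost fixed on progressions `1 (mod Q)`. -/

set_option autoImplicit false
set_option linter.unusedSectionVars false

namespace Pool.Agent.Run7.h213.QP

open Finset Filter Topology
open scoped InnerProductSpace
open Pool.Agent.K7.H83.MA
open Pool.Agent.Run7.h982.QP

universe u

/-- the size of `cls` -/
theorem cls_card (Q N : ℕ) (hQ : 0 < Q) :
    ((cls Q N).card : ℤ) = ⌊((N : ℚ) - 1) / Q⌋ + 1 := by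
  have h1 := Nat.Ioc_filter_modEq_card 0 N hQ 1
  have h2 : cls Q N = (Ioc 0 N).filter (fun x => x ≡ 1 [MOD Q]) := by
    unfold cls; rfl
  have h3 : ⌊(((0 : ℕ) : ℚ) - ((1 : ℕ) : ℚ)) / (Q : ℚ)⌋ = -1 := by
    rw [Int.floor_eq_iff]
    have hQ' : (0 : ℚ) < Q := by exact_mod_cast hQ
    have hQ1 : (1 : ℚ) ≤ Q := by exact_mod_cast hQ
    constructor
    · push_cast
      rw [le_div_iff₀ hQ']; linarith
    · push_cast
      rw [div_lt_iff₀ hQ']; linarith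
  rw [h2, h1, h3]
  have h4 : (-1 : ℤ) ≤ ⌊((N : ℚ) - ((1 : ℕ) : ℚ)) / (Q : ℚ)⌋ := by
    rw [Int.le_floor]
    have hQ' : (0 : ℚ) < Q := by exact_mod_cast hQ
    have hQ1 : (1 : ℚ) ≤ Q := by exact_mod_cast hQ
    have hN : (0 : ℚ) ≤ N := Nat.cast_nonneg N
    push_cast
    rw [le_div_iff₀ hQ']; linarith
  rw [max_eq_left (by linarith)]
  push_cast
  ring

theorem cls_le (Q N : ℕ) (hQ : 0 < Q) : ((cls Q N).card : ℝ) ≤ (N : ℝ) / Q + 1 := by
  have h1 := cls_card Q N hQ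
  have h2 := Int.floor_le (((N : ℚ) - 1) / Q)
  have hQ' : (0 : ℚ) < Q := by exact_mod_cast hQ
  have h3 : ((cls Q N).card : ℚ) ≤ (N : ℚ) / Q + 1 := by
    have h4 : ((cls Q N).card : ℚ) = (((cls Q N).card : ℤ) : ℚ) := by push_cast; rfl
    rw [h4, h1]
    push_cast
    have h5 : ((N : ℚ) - 1) / Q ≤ (N : ℚ) / Q := by
      apply div_le_div_of_nonneg_right _ hQ'.le; linarith
    linarith
  have h6 : (((cls Q N).card : ℚ) : ℝ) ≤ (((N : ℚ) / Q + 1 : ℚ) : ℝ) := by exact_mod_cast h3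
  push_cast at h6
  exact h6

theorem le_cls (Q N : ℕ) (hQ : 0 < Q) : (N : ℝ) / Q - 1 ≤ ((cls Q N).card : ℝ) := by
  have h1 := cls_card Q N hQ
  have h2 := Int.lt_floor_add_one (((N : ℚ) - 1) / Q)
  have hQ' : (0 : ℚ) < Q := by exact_mod_cast hQ
  have hQ1 : (1 : ℚ) ≤ Q := by exact_mod_cast hQ
  have h3 : (N : ℚ) / Q - 1 ≤ ((cls Q N).card : ℚ) := by
    have h4 : ((cls Q N).card : ℚ) = (((cls Q N).card : ℤ) : ℚ) := by push_cast; rfl
    rw [h4, h1]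
    push_cast
    have h5 : (N : ℚ) / Q - 1 ≤ ((N : ℚ) - 1) / Q := by
      rw [sub_div]
      have : (1 : ℚ) / Q ≤ 1 := by rw [div_le_one hQ']; exact hQ1
      linarith
    linarith
  have h6 : (((N : ℚ) / Q - 1 : ℚ) : ℝ) ≤ (((cls Q N).card : ℚ) : ℝ) := by exact_mod_cast h3
  push_cast at h6
  exact h6

theorem spa_false : Spa (fun _ => False) := by
  unfold Spa
  refine summable_zero.congr fun p => ?_
  rw [if_neg (by simp)]

section hilbert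
variable {H : Type u} [NormedAddCommGroup H] [InnerProductSpace ℂ H] [CompleteSpace H]

theorem per1_add {v : ℕ → H →L[ℂ] H} {x y : H} (hx : Per1 v x) (hy : Per1 v y) :
    Per1 v (x + y) := by
  obtain ⟨Q₁, hQ₁, E₁, hE₁, h1⟩ := hx
  obtain ⟨Q₂, hQ₂, E₂, hE₂, h2⟩ := hy
  refine ⟨Q₁ * Q₂, Nat.mul_pos hQ₁ hQ₂, fun p => E₁ p ∨ E₂ p, hE₁.or hE₂, fun n hn hm hp => ?_⟩
  have hm' : n ≡ 1 [MOD Q₁ * Q₂] := hm
  have e1 : v n x = x := h1 n hn (hm'.of_mul_right Q₂) fun p hpp hpn hE => hp p hpp hpn (Or.inl hE)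
  have e2 : v n y = y := h2 n hn (hm'.of_mul_left Q₁) fun p hpp hpn hE => hp p hpp hpn (Or.inr hE)
  rw [map_add, e1, e2]

theorem per1_smul {v : ℕ → H →L[ℂ] H} (a : ℂ) {x : H} (hx : Per1 v x) : Per1 v (a • x) := by
  obtain ⟨Q₁, hQ₁, E₁, hE₁, h1⟩ := hx
  refine ⟨Q₁, hQ₁, E₁, hE₁, fun n hn hm hp => ?_⟩
  rw [map_smul, h1 n hn hm hp]

theorem per1_zero (v : ℕ → H →L[ℂ] H) : Per1 v (0 : H) :=
  ⟨1, one_pos, fun _ => False, spa_false, fun n _ _ _ => map_zero _⟩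

/-- the subspace of the vectors fixed along a progression -/
def P1 (v : ℕ → H →L[ℂ] H) : Submodule ℂ H where
  carrier := {y | Per1 v y}
  add_mem' := fun hx hy => per1_add hx hy
  zero_mem' := per1_zero v
  smul_mem' := fun a _ hx => per1_smul a hx

theorem span_eq_P1 (v : ℕ → H →L[ℂ] H) : Submodule.span ℂ {y | Per1 v y} = P1 v :=
  Submodule.span_eq (P1 v)

theorem ZZ_approx {v : ℕ → H →L[ℂ] H} {h : H} (hh : h ∈ ZZ v) {ε : ℝ} (hε : 0 < ε) :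
    ∃ y, Per1 v y ∧ ‖h - y‖ < ε := by
  unfold ZZ at hh
  rw [span_eq_P1] at hh
  have h1 : h ∈ closure ((P1 v : Submodule ℂ H) : Set H) := by
    rw [← Submodule.topologicalClosure_coe]; exact hh
  obtain ⟨y, hy, hd⟩ := Metric.mem_closure_iff.1 h1 ε hε
  exact ⟨y, hy, by rw [← dist_eq_norm]; exact hd⟩

theorem t_NPQ (hREL : S_REL) : S_NPQ.{u} := by
  classical
  intro H _ _ _ r c v hv h hh η hη
  obtain ⟨y, ⟨Q₁, hQ₁, E₁, hE₁, hy⟩, hd⟩ := ZZ_approx hh (ε := η / 8) (by positivity)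
  have hy0 := norm_nonneg y
  obtain ⟨Q₂, hQ₂, h2⟩ := hREL E₁ hE₁ (η / (4 * (‖y‖ + 1))) (by positivity)
  refine ⟨Q₁ * Q₂, Nat.mul_pos hQ₁ hQ₂, fun Q hQ hdvd => ?_⟩
  have hd1 : Q₁ ∣ Q := (Dvd.intro _ rfl).trans hdvd
  have hd2 : Q₂ ∣ Q := (Dvd.intro_left _ rfl).trans hdvd
  obtain ⟨N₂, hN₂⟩ := h2 Q hQ hd2
  refine ⟨max N₂ Q, fun N hN => ?_⟩
  have hbad := hN₂ N ((le_max_left _ _).trans hN)
  have hNQ : Q ≤ N := (le_max_right _ _).trans hN
  have hQr : (0 : ℝ) < Q := by exact_mod_cast hQ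
  have hNr : (Q : ℝ) ≤ N := by exact_mod_cast hNQ
  have hNQ1 : 1 ≤ (N : ℝ) / Q := by rw [le_div_iff₀ hQr]; linarith
  have hterm : ∀ n ∈ cls Q N, ‖v n h - h‖ ≤ η / 4 + (if n ∈ bad E₁ Q N then 2 * ‖y‖ else 0) := by
    classical
    intro n hn
    have hn' := hn
    unfold cls at hn'
    rw [mem_filter, mem_Ioc] at hn'
    obtain ⟨⟨hn0, hnN⟩, hnm⟩ := hn'
    have e1 : v n h - h = v n (h - y) + (v n y - y) + (y - h) := by
      rw [map_sub]; abel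
    have e2 : ‖v n (h - y)‖ = ‖h - y‖ := uni_norm (hv.uni n hn0) _
    have e3 : ‖y - h‖ = ‖h - y‖ := norm_sub_rev _ _
    have e4 : ‖v n h - h‖ ≤ ‖v n (h - y)‖ + ‖v n y - y‖ + ‖y - h‖ := by
      rw [e1]; exact norm_add₃_le
    have e5 : ‖v n y - y‖ ≤ if n ∈ bad E₁ Q N then 2 * ‖y‖ else 0 := by
      split_ifs with hb
      · calc ‖v n y - y‖ ≤ ‖v n y‖ + ‖y‖ := norm_sub_le _ _
          _ = 2 * ‖y‖ := by rw [uni_norm (hv.uni n hn0)]; ring
      · have hm' : n ≡ 1 [MOD Q] := hnm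
        have e6 : v n y = y := by
          refine hy n hn0 (hm'.of_dvd hd1) fun p hp hpn hE => hb ?_
          unfold bad
          rw [mem_filter]
          exact ⟨hn, p, hp, hE, hpn⟩
        rw [e6, sub_self, norm_zero]
    rw [e2, e3] at e4
    linarith
  refine (Finset.sum_le_sum hterm).trans ?_
  rw [Finset.sum_add_distrib, Finset.sum_const, nsmul_eq_mul]
  have hb2 : ∑ n ∈ cls Q N, (if n ∈ bad E₁ Q N then 2 * ‖y‖ else 0) =
      ((bad E₁ Q N).card : ℝ) * (2 * ‖y‖) := by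
    rw [← Finset.sum_filter]
    have e1 : (cls Q N).filter (fun n => n ∈ bad E₁ Q N) = bad E₁ Q N := by
      ext n
      rw [mem_filter]
      constructor
      · exact fun h => h.2
      · intro h
        refine ⟨?_, h⟩
        unfold bad at h
        exact (mem_filter.1 h).1
    rw [e1, Finset.sum_const, nsmul_eq_mul]
  rw [hb2]
  have h3 := cls_le Q N hQ
  have h4 : ((cls Q N).card : ℝ) * (η / 4) ≤ (2 * ((N : ℝ) / Q)) * (η / 4) :=
    mul_le_mul_of_nonneg_right (by linarith) (by positivity)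
  have h5 : ((bad E₁ Q N).card : ℝ) * (2 * ‖y‖) ≤
      (η / (4 * (‖y‖ + 1)) * ((N : ℝ) / Q)) * (2 * ‖y‖) :=
    mul_le_mul_of_nonneg_right hbad (by positivity)
  have h6 : (η / (4 * (‖y‖ + 1)) * ((N : ℝ) / Q)) * (2 * ‖y‖) =
      η / 2 * ((N : ℝ) / Q) * (‖y‖ / (‖y‖ + 1)) := by
    field_simp
    ring
  have h7 : ‖y‖ / (‖y‖ + 1) ≤ 1 := by
    rw [div_le_one (by positivity)]; linarith
  have h8 : η / 2 * ((N : ℝ) / Q) * (‖y‖ / (‖y‖ + 1)) ≤ η / 2 * ((N : ℝ) / Q) * 1 :=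
    mul_le_mul_of_nonneg_left h7 (by positivity)
  linarith

end hilbert

end Pool.Agent.Run7.h213.QP
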