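import Pool.Agent.Run7.h213.QP.NPQ

/-! Piece REC of the project QP: recurrence along `n = 1 (mod Q)`. -/

set_option autoImplicit false
set_option linter.unusedSectionVars false

namespace Pool.Agent.Run7.h213.QP

open Finset Filter Topology MeasureTheory
open scoped InnerProductSpace ENNReal
open Pool.Agent.K7.H83.MA
open Pool.Agent.Run7.h982.QP

universe u

theorem iF_BM {X : Type u} [MeasurableSpace X] {A : Set X} (hA : MeasurableSet A) : BM (iF A) := by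
  refine ⟨measurable_const.indicator hA, 1, zero_le_one, fun x => ?_⟩
  unfold iF
  by_cases h : x ∈ A
  · rw [Set.indicator_of_mem h]; simp
  · rw [Set.indicator_of_notMem h]; simp

theorem iv_norm_le {X : Type u} [MeasurableSpace X] (μ : Measure X) [IsProbabilityMeasure μ]
    {A : Set X} (hA : MeasurableSet A) : ‖iv μ A‖ ≤ 1 := by
  refine bl_norm_le (iF_BM hA) zero_le_one fun x => ?_
  unfold iF
  by_cases h : x ∈ A
  · rw [Set.indicator_of_mem h]; simp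
  · rw [Set.indicator_of_notMem h]; simp

theorem inner_one_iv {X : Type u} [MeasurableSpace X] (μ : Measure X) [IsProbabilityMeasure μ]
    {A : Set X} (hA : MeasurableSet A) :
    ⟪bl μ (fun _ => (1 : ℂ)), iv μ A⟫_ℂ = ((μ.real A : ℝ) : ℂ) := by
  unfold iv
  rw [inner_bl (BM.const 1) (iF_BM hA)]
  have h1 : ∀ x, (starRingEnd ℂ) (1 : ℂ) * iF A x = A.indicator (fun _ => (1 : ℂ)) x := by
    intro x; rw [map_one, one_mul]; rfl
  simp only [h1]
  rw [integral_indicator hA]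
  simp [Measure.real]

theorem one_per1 {X : Type u} [MeasurableSpace X] (μ : Measure X) [IsProbabilityMeasure μ]
    {r : ℕ} {c : ℕ → Fin r} {T : ℕ → X → X} (hS : Sys c μ T) :
    Per1 (koop μ T) (bl μ (fun _ => (1 : ℂ))) := by
  refine ⟨1, one_pos, fun _ => False, spa_false, fun n hn _ _ => ?_⟩
  rw [koop_bl (hS.mp n hn) (BM.const 1)]

theorem t_REC (hNPQ : S_NPQ.{u}) (hAPE : S_APE.{u}) : S_REC.{u} := by
  intro X _ _ μ _ r c T hS A hA η hη
  classical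
  set v := koop μ T with hvdef
  have hFG : FG c v := hS.FG
  set a := iv μ A with hadef
  set h := PZ v a with hhdef
  have hhZ : h ∈ ZZ v := by
    rw [hhdef]; unfold PZ; exact Submodule.starProjection_apply_mem _ _
  have horth : ∀ z ∈ ZZ v, ⟪z, a - h⟫_ℂ = 0 := by
    intro z hz
    have h1 := Submodule.sub_starProjection_mem_orthogonal (K := ZZ v) a
    exact (Submodule.mem_orthogonal _ _).1 h1 z hz
  have hPZ : ∀ y, Per1 v y → y ∈ ZZ v := fun y hy =>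
    Submodule.le_topologicalClosure _ (Submodule.subset_span hy)
  have hape := hAPE _ r c v hFG (a - h) (fun y hy => horth y (hPZ y hy))
  obtain ⟨Q₀, hQ₀, h0⟩ := hNPQ _ r c v hFG h hhZ (η / 4) (by positivity)
  refine ⟨Q₀, hQ₀, fun Q hQ hdvd => ?_⟩
  obtain ⟨N₁, hN₁⟩ := h0 Q hQ hdvd
  have hQr : (0 : ℝ) < Q := by exact_mod_cast hQ
  have hape' := hape Q hQ (1 : ZMod Q)
  obtain ⟨N₂, hN₂⟩ := (Metric.tendsto_atTop.1 hape') (η / (4 * Q)) (by positivity)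
  obtain ⟨N₃, hN₃⟩ := exists_nat_ge (4 * Q / η : ℝ)
  refine ⟨max (max N₁ N₂) (max N₃ 1), fun N hN => ?_⟩
  have hNa : N₁ ≤ N := (le_max_left _ _).trans ((le_max_left _ _).trans hN)
  have hNb : N₂ ≤ N := (le_max_right _ _).trans ((le_max_left _ _).trans hN)
  have hNc : N₃ ≤ N := (le_max_left _ _).trans ((le_max_right _ _).trans hN)
  have hNd : 1 ≤ N := (le_max_right _ _).trans ((le_max_right _ _).trans hN)
  have hNr : (1 : ℝ) ≤ N := by exact_mod_cast hNd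
  have e1 := hN₁ N hNa
  have e2 := hN₂ N hNb
  rw [dist_zero_right] at e2
  have hset : (Ioc 0 N).filter (fun k : ℕ => (k : ZMod Q) = 1) = cls Q N := by
    unfold cls
    ext k
    rw [mem_filter, mem_filter]
    refine and_congr_right fun _ => ?_
    have := ZMod.natCast_eq_natCast_iff k 1 Q
    rw [Nat.cast_one] at this
    exact this
  have e3 : ‖∑ k ∈ cls Q N, v k (a - h)‖ ≤ η / 4 * ((N : ℝ) / Q) := by
    have e4 : ‖(N : ℂ)⁻¹ • ∑ k ∈ cls Q N, v k (a - h)‖ < η / (4 * Q) := by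
      refine lt_of_eq_of_lt ?_ e2
      rw [← hset]
      refine congrArg norm (congrArg (fun z => (N : ℂ)⁻¹ • z)
        (Finset.sum_congr ?_ fun _ _ => rfl))
      ext k
      simp only [mem_filter]
    rw [norm_smul, norm_inv, Complex.norm_natCast, inv_mul_lt_iff₀ (by linarith)] at e4
    calc _ ≤ (N : ℝ) * (η / (4 * Q)) := e4.le
      _ = η / 4 * ((N : ℝ) / Q) := by field_simp
  have hane : ‖a‖ ≤ 1 := iv_norm_le μ hA
  -- the inner product of `a` and `h`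
  have hah : (⟪a, h⟫_ℂ).re = ‖h‖ ^ 2 := by
    have e5 : ⟪h, a - h⟫_ℂ = 0 := horth h hhZ
    rw [inner_sub_right, sub_eq_zero] at e5
    have e6 : ⟪a, h⟫_ℂ = (starRingEnd ℂ) ⟪h, a⟫_ℂ := (inner_conj_symm a h).symm
    rw [e6, Complex.conj_re, e5]
    rw [← inner_self_eq_norm_sq (𝕜 := ℂ) h]
    rfl
  have hhm : μ.real A ≤ ‖h‖ := by
    set o : Lp ℂ 2 μ := bl μ (fun _ => (1 : ℂ)) with ho
    have e5 : ⟪o, a - h⟫_ℂ = 0 := horth o (hPZ o (one_per1 μ hS))
    rw [inner_sub_right, sub_eq_zero] at e5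
    have e6 : ⟪o, h⟫_ℂ = ((μ.real A : ℝ) : ℂ) := by rw [← e5]; exact inner_one_iv μ hA
    have e7 : ‖⟪o, h⟫_ℂ‖ ≤ ‖o‖ * ‖h‖ := norm_inner_le_norm o h
    have e8 : ‖o‖ ≤ 1 := bl_norm_le (BM.const 1) zero_le_one fun x => by simp
    rw [e6, Complex.norm_real, Real.norm_of_nonneg measureReal_nonneg] at e7
    calc μ.real A ≤ ‖o‖ * ‖h‖ := e7
      _ ≤ 1 * ‖h‖ := mul_le_mul_of_nonneg_right e8 (norm_nonneg _)
      _ = ‖h‖ := one_mul _
  have hm0 : (0 : ℝ) ≤ μ.real A := measureReal_nonneg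
  have hm1 : μ.real A ≤ 1 := measureReal_le_one
  have hsq : (μ.real A) ^ 2 ≤ ‖h‖ ^ 2 := pow_le_pow_left₀ hm0 hhm 2
  have hterm : ∀ n ∈ cls Q N, (⟪a, v n (a - h)⟫_ℂ).re + (‖h‖ ^ 2 - ‖v n h - h‖) ≤
      (⟪a, v n a⟫_ℂ).re := by
    intro n _
    have e5 : v n a = v n (a - h) + ((v n h - h) + h) := by rw [map_sub]; abel
    have e6 : (⟪a, v n a⟫_ℂ).re =
        (⟪a, v n (a - h)⟫_ℂ).re + ((⟪a, v n h - h⟫_ℂ).re + (⟪a, h⟫_ℂ).re) := by
      conv_lhs => rw [e5]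
      rw [inner_add_right, inner_add_right, Complex.add_re, Complex.add_re]
    have e7 : |(⟪a, v n h - h⟫_ℂ).re| ≤ ‖v n h - h‖ := by
      refine (Complex.abs_re_le_norm _).trans ((norm_inner_le_norm _ _).trans ?_)
      calc ‖a‖ * ‖v n h - h‖ ≤ 1 * ‖v n h - h‖ :=
            mul_le_mul_of_nonneg_right hane (norm_nonneg _)
        _ = _ := one_mul _
    have e8 := neg_abs_le (⟪a, v n h - h⟫_ℂ).re
    rw [e6, hah]
    linarith
  refine le_trans ?_ (Finset.sum_le_sum hterm)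
  rw [Finset.sum_add_distrib, Finset.sum_sub_distrib, Finset.sum_const, nsmul_eq_mul]
  have e9 : -(η / 4 * ((N : ℝ) / Q)) ≤ ∑ n ∈ cls Q N, (⟪a, v n (a - h)⟫_ℂ).re := by
    have e10 : ∑ n ∈ cls Q N, (⟪a, v n (a - h)⟫_ℂ).re =
        (⟪a, ∑ n ∈ cls Q N, v n (a - h)⟫_ℂ).re := by
      rw [inner_sum, Complex.re_sum]
    rw [e10]
    have e11 : |(⟪a, ∑ n ∈ cls Q N, v n (a - h)⟫_ℂ).re| ≤ η / 4 * ((N : ℝ) / Q) := by
      refine (Complex.abs_re_le_norm _).trans ((norm_inner_le_norm _ _).trans ?_)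
      calc ‖a‖ * ‖∑ n ∈ cls Q N, v n (a - h)‖ ≤ 1 * ‖∑ n ∈ cls Q N, v n (a - h)‖ :=
            mul_le_mul_of_nonneg_right hane (norm_nonneg _)
        _ ≤ _ := by rw [one_mul]; exact e3
    have e12 := neg_abs_le (⟪a, ∑ n ∈ cls Q N, v n (a - h)⟫_ℂ).re
    linarith
  have e13 := le_cls Q N hQ
  have hh1 : ‖h‖ ≤ 1 := by
    have e14 : ‖h‖ ^ 2 ≤ ‖a‖ * ‖h‖ := by
      rw [← hah]
      exact (Complex.re_le_norm _).trans (norm_inner_le_norm _ _)
    by_contra hcon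
    push Not at hcon
    have : ‖h‖ ^ 2 ≤ 1 * ‖h‖ := e14.trans (mul_le_mul_of_nonneg_right hane (norm_nonneg _))
    nlinarith
  have e15 : ‖h‖ ^ 2 ≤ 1 := by
    have := norm_nonneg h
    nlinarith
  have e16 : ((N : ℝ) / Q - 1) * ‖h‖ ^ 2 ≤ ((cls Q N).card : ℝ) * ‖h‖ ^ 2 :=
    mul_le_mul_of_nonneg_right e13 (by positivity)
  have e17 : 1 ≤ η / 4 * ((N : ℝ) / Q) := by
    have e18 : (4 * Q / η : ℝ) ≤ N := hN₃.trans (by exact_mod_cast hNc)
    rw [div_le_iff₀ hη] at e18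
    have e19 : η / 4 * ((N : ℝ) / Q) = (N * η) / (4 * Q) := by field_simp
    rw [e19, le_div_iff₀ (by positivity)]
    linarith
  have e20 : (μ.real A) ^ 2 * ((N : ℝ) / Q) ≤ ‖h‖ ^ 2 * ((N : ℝ) / Q) :=
    mul_le_mul_of_nonneg_right hsq (by positivity)
  nlinarith

end Pool.Agent.Run7.h213.QP
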